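import Pool.Agent.N662.SE.Stm

/-!
# Project SE, part CURV (helper281): upper curvature of a convex function at almost every point
-/

set_option autoImplicit false

open MeasureTheory Filter Topology

namespace Pool.Agent.N281.SE

/-- supporting lines -/
theorem exists_sub {f : ℝ → ℝ} (hf : ConvexOn ℝ Set.univ f) (x : ℝ) :
    ∃ m : ℝ, ∀ y, f x + m * (y - x) ≤ f y := by
  have hne : (Set.range fun y : Set.Iio x => (f x - f y) / (x - y)).Nonempty :=
    ⟨_, ⟨⟨x - 1, by simp⟩, rfl⟩⟩
  have hub : ∀ z, x < z → ∀ a ∈ Set.range (fun y : Set.Iio x => (f x - f y) / (x - y)),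
      a ≤ (f z - f x) / (z - x) := by
    rintro z hz _ ⟨⟨y, hy⟩, rfl⟩
    exact hf.slope_mono_adjacent (Set.mem_univ y) (Set.mem_univ z) hy hz
  have hbdd : BddAbove (Set.range fun y : Set.Iio x => (f x - f y) / (x - y)) :=
    ⟨_, fun a ha => hub (x + 1) (by linarith) a ha⟩
  refine ⟨sSup (Set.range fun y : Set.Iio x => (f x - f y) / (x - y)), fun y => ?_⟩
  rcases lt_trichotomy y x with h | h | h
  · have h1 : (f x - f y) / (x - y) ≤
        sSup (Set.range fun y : Set.Iio x => (f x - f y) / (x - y)) :=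
      le_csSup hbdd ⟨⟨y, h⟩, rfl⟩
    rw [div_le_iff₀ (by linarith)] at h1
    nlinarith
  · subst h
    simp
  · have h1 : sSup (Set.range fun y : Set.Iio x => (f x - f y) / (x - y)) ≤
        (f y - f x) / (y - x) := csSup_le hne (hub y h)
    rw [le_div_iff₀ (by linarith)] at h1
    linarith

/-- dimension one -/
theorem ae_one {f : ℝ → ℝ} (hf : ConvexOn ℝ Set.univ f) :
    ∀ᵐ t : ℝ, ∃ C : ℕ, ∀ s ∈ Set.Icc (0:ℝ) 1, f (t + s) + f (t - s) - 2 * f t ≤ C * s ^ 2 := by
  choose g hg using exists_sub hf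
  have hmono : Monotone g := by
    intro x y hxy
    rcases eq_or_lt_of_le hxy with h | h
    · rw [h]
    · have h1 := hg x y
      have h2 := hg y x
      have h3 : (g x - g y) * (y - x) ≤ 0 := by nlinarith
      by_contra hc
      push Not at hc
      have : 0 < (g x - g y) * (y - x) := mul_pos (by linarith) (by linarith)
      linarith
  filter_upwards [hmono.ae_differentiableAt] with t ht
  obtain ⟨C0, hC0, hb⟩ := ht.isBigO_sub.exists_pos
  rw [Asymptotics.isBigOWith_iff, Metric.eventually_nhds_iff] at hb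
  obtain ⟨δ, hδ, hb⟩ := hb
  set D1 : ℝ := f (t + 1) + f (t - 1) - 2 * f t with hD1
  have hD10 : 0 ≤ D1 := by
    have h1 := hg t (t + 1)
    have h2 := hg t (t - 1)
    rw [hD1]
    linarith
  obtain ⟨C, hC⟩ := exists_nat_ge (2 * C0 + D1 / δ)
  refine ⟨C, fun s hs => ?_⟩
  have hs2 : 0 ≤ s ^ 2 := sq_nonneg s
  have hD1δ : 0 ≤ D1 / δ := div_nonneg hD10 hδ.le
  by_cases hsδ : s < δ
  · have e1 : ∀ r : ℝ, |r| < δ → f (t + r) ≤ f t + r * g t + C0 * r ^ 2 := by
      intro r hr
      have h1 := hg (t + r) t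
      have h2 : ‖g (t + r) - g t‖ ≤ C0 * ‖t + r - t‖ := hb (by
        rw [Real.dist_eq]
        simpa using hr)
      rw [add_sub_cancel_left, Real.norm_eq_abs, Real.norm_eq_abs] at h2
      have h3 : r * (g (t + r) - g t) ≤ C0 * r ^ 2 := by
        have h4 : r * (g (t + r) - g t) ≤ |r| * |g (t + r) - g t| := by
          rw [← abs_mul]
          exact le_abs_self _
        have h5 : |r| * |g (t + r) - g t| ≤ |r| * (C0 * |r|) :=
          mul_le_mul_of_nonneg_left h2 (abs_nonneg r)
        have h6 : |r| * (C0 * |r|) = C0 * r ^ 2 := by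
          rw [← sq_abs r]
          ring
        linarith
      nlinarith
    have e2 := e1 s (by rw [abs_of_nonneg hs.1]; exact hsδ)
    have e3 := e1 (-s) (by rw [abs_neg, abs_of_nonneg hs.1]; exact hsδ)
    rw [← sub_eq_add_neg] at e3
    have e4 : 2 * C0 * s ^ 2 ≤ C * s ^ 2 :=
      mul_le_mul_of_nonneg_right (by linarith) hs2
    nlinarith
  · push Not at hsδ
    have h1 : f (t + s) ≤ (1 - s) * f t + s * f (t + 1) := by
      have := hf.2 (Set.mem_univ t) (Set.mem_univ (t + 1)) 
        (show (0:ℝ) ≤ 1 - s by linarith [hs.2]) (show (0:ℝ) ≤ s from hs.1) (by ring)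
      simp only [smul_eq_mul] at this
      have e : (1 - s) * t + s * (t + 1) = t + s := by ring
      rwa [e] at this
    have h2 : f (t - s) ≤ (1 - s) * f t + s * f (t - 1) := by
      have := hf.2 (Set.mem_univ t) (Set.mem_univ (t - 1)) 
        (show (0:ℝ) ≤ 1 - s by linarith [hs.2]) (show (0:ℝ) ≤ s from hs.1) (by ring)
      simp only [smul_eq_mul] at this
      have e : (1 - s) * t + s * (t - 1) = t - s := by ring
      rwa [e] at this
    have h3 : f (t + s) + f (t - s) - 2 * f t ≤ s * D1 := by rw [hD1]; linarith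
    have h4 : s * D1 ≤ D1 / δ * s ^ 2 := by
      rw [div_mul_eq_mul_div, le_div_iff₀ hδ]
      nlinarith [mul_nonneg (mul_nonneg hs.1 hD10) (sub_nonneg.2 hsδ)]
    have h5 : D1 / δ * s ^ 2 ≤ C * s ^ 2 := mul_le_mul_of_nonneg_right (by linarith) hs2
    linarith

theorem curv : Pool.Agent.N662.SE.S_CURV := by
  intro d φ hφ
  have hcont : Continuous φ := hφ.locallyLipschitz.continuous
  have hline : ∀ (h : Fin d → ℝ) (k : Fin d),
      ConvexOn ℝ Set.univ (fun t : ℝ => φ (h + Pi.single k t)) := by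
    intro h k
    refine ⟨convex_univ, ?_⟩
    intro x _ y _ a b ha hb hab
    have := hφ.2 (Set.mem_univ (h + Pi.single k x)) (Set.mem_univ (h + Pi.single k y)) ha hb hab
    have e : a • (h + Pi.single k x) + b • (h + Pi.single k y) =
        h + Pi.single k (a • x + b • y) := by
      rw [smul_add, smul_add, Pi.single_add, Pi.single_smul, Pi.single_smul]
      have : a • h + b • h = h := by rw [← add_smul, hab, one_smul]
      calc a • h + a • Pi.single k x + (b • h + b • Pi.single k y)
          = (a • h + b • h) + (a • Pi.single k x + b • Pi.single k y) := by abel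
        _ = h + (a • Pi.single k x + b • Pi.single k y) := by rw [this]
    rw [e] at this
    exact this
  let G : Fin d → ℕ → Set (Fin d → ℝ) := fun k C => {h | ∀ s ∈ Set.Icc (0:ℝ) 1,
    φ (h + Pi.single k s) + φ (h - Pi.single k s) - 2 * φ h ≤ C * s ^ 2}
  have hG : ∀ k C, IsClosed (G k C) := by
    intro k C
    have : G k C = ⋂ s ∈ Set.Icc (0:ℝ) 1,
        {h | φ (h + Pi.single k s) + φ (h - Pi.single k s) - 2 * φ h ≤ C * s ^ 2} := by
      ext h
      simp [G]
    rw [this]
    refine isClosed_biInter fun s _ => ?_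
    refine isClosed_le ?_ continuous_const
    have c1 : Continuous (fun h : Fin d → ℝ => φ (h + Pi.single k s)) :=
      hcont.comp (continuous_id.add continuous_const)
    have c2 : Continuous (fun h : Fin d → ℝ => φ (h - Pi.single k s)) :=
      hcont.comp (continuous_id.sub continuous_const)
    exact (c1.add c2).sub (continuous_const.mul hcont)
  have hae : ∀ k : Fin d, ∀ᵐ h : Fin d → ℝ, h ∈ ⋃ C, G k C := by
    intro k
    let L : ℝ →ₗ[ℝ] (Fin d → ℝ) := LinearMap.single ℝ (fun _ => ℝ) k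
    refine ae_mem_of_ae_add_linearMap_mem L (volume : Measure ℝ) volume
      (MeasurableSet.iUnion fun C => (hG k C).measurableSet) fun y => ?_
    filter_upwards [ae_one (hline y k)] with t ht
    obtain ⟨C, hC⟩ := ht
    refine Set.mem_iUnion.2 ⟨C, fun s hs => ?_⟩
    have h1 := hC s hs
    have e1 : y + L t + Pi.single k s = y + Pi.single k (t + s) := by
      rw [Pi.single_add, ← add_assoc]
      rfl
    have e2 : y + L t - Pi.single k s = y + Pi.single k (t - s) := by
      rw [Pi.single_sub, ← add_sub_assoc]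
      rfl
    have e3 : y + L t = y + Pi.single k t := rfl
    rw [e1, e2, e3]
    exact h1
  have hae' : ∀ᵐ h : Fin d → ℝ, ∀ k, h ∈ ⋃ C, G k C := ae_all_iff.2 hae
  filter_upwards [hae'] with h hh
  have hC : ∀ k, ∃ C : ℕ, h ∈ G k C := fun k => Set.mem_iUnion.1 (hh k)
  choose C hC using hC
  have hv : ∀ k, ∃ m : ℝ, ∀ y : ℝ, φ h + m * y ≤ φ (h + Pi.single k y) := by
    intro k
    obtain ⟨m, hm⟩ := exists_sub (hline h k) 0
    refine ⟨m, fun y => ?_⟩
    have := hm y
    simpa using this
  choose v hv using hv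
  refine ⟨v, ∑ k, (C k : ℝ), Finset.sum_nonneg fun k _ => Nat.cast_nonneg _, fun k s hs => ?_⟩
  have h1 : (C k : ℝ) ≤ ∑ k, (C k : ℝ) :=
    Finset.single_le_sum (f := fun k => (C k : ℝ)) (fun k _ => Nat.cast_nonneg _)
      (Finset.mem_univ k)
  have h2 : (C k : ℝ) * s ^ 2 ≤ (∑ k, (C k : ℝ)) * s ^ 2 :=
    mul_le_mul_of_nonneg_right h1 (sq_nonneg s)
  rw [abs_le] at hs
  have e0 : ∀ r : ℝ, h - Pi.single k r = h + Pi.single k (-r) := by
    intro r
    rw [Pi.single_neg, sub_eq_add_neg]
  by_cases h0 : 0 ≤ s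
  · have h3 := hC k s ⟨h0, hs.2⟩
    rw [e0] at h3
    have h4 := hv k (-s)
    linarith
  · push Not at h0
    have h3 := hC k (-s) ⟨by linarith, by linarith⟩
    rw [e0, neg_neg, neg_sq] at h3
    have h4 := hv k (-s)
    linarith

end Pool.Agent.N281.SE
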